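import Mathlib

namespace Pool.Agent.Q16.Wilf

/-- The nonzero elements of `S` that are not sums of two nonzero elements of `S`. -/
def atoms (S : AddSubmonoid ℕ) : Set ℕ :=
  {x | x ∈ S ∧ x ≠ 0 ∧ ∀ y ∈ S, ∀ z ∈ S, y ≠ 0 → z ≠ 0 → y + z ≠ x}

theorem closure_atoms (S : AddSubmonoid ℕ) : AddSubmonoid.closure (atoms S) = S := by
  apply le_antisymm
  · rw [AddSubmonoid.closure_le]
    intro x hx
    exact hx.1
  · intro x
    induction x using Nat.strong_induction_on with
    | _ x ih =>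
      intro hx
      by_cases h0 : x = 0
      · subst h0; exact zero_mem _
      by_cases ha : x ∈ atoms S
      · exact AddSubmonoid.subset_closure ha
      · have : ∃ y ∈ S, ∃ z ∈ S, y ≠ 0 ∧ z ≠ 0 ∧ y + z = x := by
          by_contra hcon
          apply ha
          refine ⟨hx, h0, ?_⟩
          intro y hy z hz hy0 hz0 hyz
          exact hcon ⟨y, hy, z, hz, hy0, hz0, hyz⟩
        obtain ⟨y, hy, z, hz, hy0, hz0, rfl⟩ := this
        exact add_mem (ih y (by omega) hy) (ih z (by omega) hz)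

theorem atoms_subset (S : AddSubmonoid ℕ) (G : Set ℕ) (hG : AddSubmonoid.closure G = S) :
    atoms S ⊆ G := by
  have key : ∀ x ∈ AddSubmonoid.closure G,
      x = 0 ∨ x ∈ G ∨ ∃ y ∈ S, ∃ z ∈ S, y ≠ 0 ∧ z ≠ 0 ∧ y + z = x := by
    intro x hx
    induction hx using AddSubmonoid.closure_induction with
    | mem x hx => exact Or.inr (Or.inl hx)
    | zero => exact Or.inl rfl
    | add x y hx hy ihx ihy =>
      by_cases h1 : x = 0
      · subst h1; simpa using ihy
      by_cases h2 : y = 0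
      · subst h2; simpa using ihx
      rw [hG] at hx hy
      exact Or.inr (Or.inr ⟨x, hx, y, hy, h1, h2, rfl⟩)
  intro x hx
  have := key x (by rw [hG]; exact hx.1)
  rcases this with h | h | ⟨y, hy, z, hz, hy0, hz0, h⟩
  · exact absurd h hx.2.1
  · exact h
  · exact absurd h (hx.2.2 y hy z hz hy0 hz0)

theorem eq_atoms (S : AddSubmonoid ℕ) (G : Set ℕ) (hG : AddSubmonoid.closure G = S)
    (hmin : ∀ H : Set ℕ, H ⊂ G → AddSubmonoid.closure H ≠ S) : G = atoms S := by
  by_contra hne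
  have h1 : atoms S ⊂ G := (atoms_subset S G hG).ssubset_of_ne (fun h => hne h.symm)
  exact hmin _ h1 (closure_atoms S)

/-- reflection: gaps inject into non-gaps -/
theorem two_gap_le (S : AddSubmonoid ℕ) (F : ℕ) (hF : ∀ x, F < x → x ∈ S)
    (Gp : Finset ℕ) (hG : ∀ x, x ∈ Gp ↔ x ∉ S)
    (h : ∀ z, z ∉ S → z ≤ F → F - z ∈ S) : 2 * Gp.card ≤ F + 1 := by
  classical
  have hsub : Gp ⊆ Finset.range (F+1) := by
    intro x hx
    rw [hG] at hx
    by_contra hcon
    apply hx
    apply hF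
    simpa using hcon
  have hinj : (Gp.image (fun z => F - z)) ⊆ (Finset.range (F+1)) \ Gp := by
    intro y hy
    simp only [Finset.mem_image] at hy
    obtain ⟨z, hz, rfl⟩ := hy
    have hzF : z ≤ F := by
      have := hsub hz
      simp at this; omega
    simp only [Finset.mem_sdiff, Finset.mem_range]
    refine ⟨by omega, ?_⟩
    rw [hG]
    push Not
    exact h z ((hG z).1 hz) hzF
  have hc1 : (Gp.image (fun z => F - z)).card = Gp.card := by
    apply Finset.card_image_of_injOn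
    intro x hx y hy hxy
    have h1 := hsub hx
    have h2 := hsub hy
    simp at h1 h2 hxy
    omega
  have hc2 := Finset.card_le_card hinj
  rw [hc1, Finset.card_sdiff_of_subset hsub, Finset.card_range] at hc2
  have hc3 := Finset.card_le_card hsub
  rw [Finset.card_range] at hc3
  omega

theorem rep (u v : ℕ) (hv : 0 < v) (huv : Nat.Coprime u v) (z : ℤ) :
    ∃ x : ℕ, x < v ∧ ∃ y : ℤ, z = x * u + y * v := by
  have hb : IsCoprime (u:ℤ) (v:ℤ) := Nat.isCoprime_iff_coprime.2 huv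
  obtain ⟨s, t, hst⟩ := hb
  have hv' : (0:ℤ) < v := by exact_mod_cast hv
  have h1 : 0 ≤ (z * s) % v := Int.emod_nonneg _ (by omega)
  have h2 : (z * s) % v < v := Int.emod_lt_of_pos _ hv'
  refine ⟨((z*s) % v).toNat, ?_, z * t + ((z*s)/v) * u, ?_⟩
  · omega
  · rw [Int.toNat_of_nonneg h1]
    have h3 := Int.emod_add_mul_ediv (z*s) v
    have h4 : (z*s) % v = z*s - v * ((z*s)/v) := by linarith
    rw [h4]
    have : z = z * (s * u + t * v) := by rw [hst]; ring
    linear_combination this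

/-- Semigroups with at most two atoms. -/
theorem wilf_le_two (S : AddSubmonoid ℕ) (A : Finset ℕ) (hA : (A : Set ℕ) = atoms S)
    (hcard : A.card ≤ 2) (F : ℕ) (hF : F ∉ S) (hF' : ∀ x, F < x → x ∈ S)
    (Gp : Finset ℕ) (hG : ∀ x, x ∈ Gp ↔ x ∉ S) :
    A.card = 2 ∧ 2 * Gp.card ≤ F + 1 := by
  classical
  have hcl := closure_atoms S
  rw [← hA] at hcl
  have hF1 : F + 1 ∈ S := hF' _ (by omega)
  have hF2 : F + 2 ∈ S := hF' _ (by omega)
  have hc : A.card = 0 ∨ A.card = 1 ∨ A.card = 2 := by omega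
  rcases hc with hc | hc | hc
  · exfalso
    rw [Finset.card_eq_zero] at hc
    subst hc
    rw [← hcl] at hF1
    simp at hF1
  · exfalso
    rw [Finset.card_eq_one] at hc
    obtain ⟨u, rfl⟩ := hc
    rw [← hcl] at hF1 hF2 hF
    simp only [Finset.coe_singleton, AddSubmonoid.mem_closure_singleton, smul_eq_mul] at hF1 hF2 hF
    obtain ⟨i, hi⟩ := hF1
    obtain ⟨j, hj⟩ := hF2
    have h1 : u ∣ F + 1 := ⟨i, by rw [← hi]; ring⟩
    have h2 : u ∣ F + 2 := ⟨j, by rw [← hj]; ring⟩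
    have h3 : u ∣ 1 := by
      have := (Nat.dvd_add_right h1).1 (show u ∣ (F + 1) + 1 from h2)
      exact this
    have h4 : u = 1 := Nat.dvd_one.1 h3
    subst h4
    exact hF ⟨F, by ring⟩
  · refine ⟨hc, ?_⟩
    rw [Finset.card_eq_two] at hc
    obtain ⟨u, v, huv, rfl⟩ := hc
    have hmem : ∀ x, x ∈ S ↔ ∃ i j : ℕ, i * u + j * v = x := by
      intro x
      rw [← hcl]
      simp only [Finset.coe_insert, Finset.coe_singleton, AddSubmonoid.mem_closure_pair,
        smul_eq_mul]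
    have hua : u ∈ atoms S := by rw [← hA]; simp
    have hva : v ∈ atoms S := by rw [← hA]; simp
    have hu0 : 0 < u := Nat.pos_of_ne_zero hua.2.1
    have hv0 : 0 < v := Nat.pos_of_ne_zero hva.2.1
    have hcop : Nat.Coprime u v := by
      have h1 : Nat.gcd u v ∣ F + 1 := by
        obtain ⟨i, j, h⟩ := (hmem _).1 hF1
        rw [← h]
        exact dvd_add (Dvd.dvd.mul_left (Nat.gcd_dvd_left u v) _)
          (Dvd.dvd.mul_left (Nat.gcd_dvd_right u v) _)
      have h2 : Nat.gcd u v ∣ F + 2 := by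
        obtain ⟨i, j, h⟩ := (hmem _).1 hF2
        rw [← h]
        exact dvd_add (Dvd.dvd.mul_left (Nat.gcd_dvd_left u v) _)
          (Dvd.dvd.mul_left (Nat.gcd_dvd_right u v) _)
      have h3 := (Nat.dvd_add_right h1).1 (show Nat.gcd u v ∣ (F + 1) + 1 from h2)
      exact Nat.dvd_one.1 h3
    have hZ : ∀ z : ℤ, ∀ x : ℕ, ∀ y : ℤ, z = x * u + y * v → 0 ≤ y →
        ∀ n : ℕ, (n:ℤ) = z → n ∈ S := by
      intro z x y hz hy n hn
      rw [hmem]
      refine ⟨x, y.toNat, ?_⟩
      zify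
      rw [Int.toNat_of_nonneg hy, hn, hz]
    obtain ⟨x1, hx1, y1, hF1'⟩ := rep u v hv0 hcop (F:ℤ)
    have hy1 : y1 ≤ -1 := by
      by_contra hcon
      exact hF (hZ _ x1 y1 hF1' (by omega) F rfl)
    -- F is at most (v-1)u - v
    have hFle : (F:ℤ) ≤ ((v:ℤ)-1) * u - v := by
      have h1 : (x1:ℤ) ≤ v - 1 := by omega
      have h2 : (x1:ℤ) * u ≤ ((v:ℤ)-1) * u := by
        apply mul_le_mul_of_nonneg_right h1; positivity
      have h3 : y1 * (v:ℤ) ≤ (-1) * v := by
        apply mul_le_mul_of_nonneg_right hy1; positivity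
      rw [hF1']; linarith
    have hFeq : (F:ℤ) = ((v:ℤ)-1) * u - v := by
      by_contra hne
      have hlt : (F:ℤ) < ((v:ℤ)-1) * u - v := lt_of_le_of_ne hFle hne
      have hnn : 0 ≤ ((v:ℤ)-1) * u - v := by
        have : (0:ℤ) ≤ F := by positivity
        linarith
      have hmemS : (((v:ℤ)-1) * u - v).toNat ∈ S := hF' _ (by omega)
      obtain ⟨i, j, hij⟩ := (hmem _).1 hmemS
      have hij' : (i:ℤ) * u + j * v = ((v:ℤ)-1) * u - v := by
        have := congrArg (Nat.cast : ℕ → ℤ) hij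
        rw [Int.toNat_of_nonneg hnn] at this
        push_cast at this
        exact this
      have h1 : ((v:ℤ) - 1 - i) * u = (j + 1) * v := by linear_combination -hij'
      have h2 : (v:ℤ) ∣ ((v:ℤ) - 1 - i) * u := ⟨j+1, by rw [h1]; ring⟩
      have hcop' : IsCoprime (v:ℤ) (u:ℤ) := (Nat.isCoprime_iff_coprime.2 hcop).symm
      have h3 : (v:ℤ) ∣ ((v:ℤ) - 1 - i) := hcop'.dvd_of_dvd_mul_right h2
      have h4 : 0 < ((v:ℤ) - 1 - i) := by
        have : 0 < ((v:ℤ) - 1 - i) * u := by rw [h1]; positivity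
        exact (pos_iff_pos_of_mul_pos this).2 (by exact_mod_cast hu0)
      have h5 := Int.le_of_dvd h4 h3
      omega
    apply two_gap_le S F hF' Gp hG
    intro z hz hzF
    obtain ⟨x, hx, y, hzr⟩ := rep u v hv0 hcop (z:ℤ)
    have hy : y ≤ -1 := by
      by_contra hcon
      exact hz (hZ _ x y hzr (by omega) z rfl)
    apply hZ ((F:ℤ) - z) (v - 1 - x) (-1 - y) _ (by omega) (F - z) (by push_cast [hzF]; ring)
    rw [hFeq, hzr]
    have : ((v - 1 - x : ℕ) : ℤ) = (v:ℤ) - 1 - x := by omega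
    rw [this]; ring

end Pool.Agent.Q16.Wilf
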