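import Pool.Agent.Q16.Wilf.Modular

namespace Pool.Agent.Q16.Wilf

theorem ineq1 (e g F b m : ℕ) (he : 3 ≤ e) (hg : 2 * g + 1 ≤ b) (hm : 4 * m ≤ b + 7)
    (hF : b ≤ F + m) : e * g ≤ (e - 1) * (F + 1) := by
  obtain ⟨k, rfl⟩ := Nat.exists_eq_add_of_le he
  have h1 : 3 + k - 1 = 2 + k := by omega
  rw [h1]
  zify at *
  have hk : (0:ℤ) ≤ k := by positivity
  nlinarith [mul_nonneg hk (show (0:ℤ) ≤ b - 2*m + 3 by linarith),
    mul_nonneg hk (show (0:ℤ) ≤ (F:ℤ) + m - b by linarith),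
    mul_nonneg hk (show (0:ℤ) ≤ (b:ℤ) - 2 * g - 1 by linarith)]

theorem ineq3 (e g F b m : ℕ) (he : 4 ≤ e) (hg : 2 * g + 1 ≤ b) (hm : 3 * m ≤ b + 5)
    (hF : b ≤ F + m) (h2m : 2 * m ≤ b + 1) : e * g ≤ (e - 1) * (F + 1) := by
  obtain ⟨k, rfl⟩ := Nat.exists_eq_add_of_le he
  have h1 : 4 + k - 1 = 3 + k := by omega
  rw [h1]
  zify at *
  have hk : (0:ℤ) ≤ k := by positivity
  nlinarith [mul_nonneg hk (show (0:ℤ) ≤ b - 2*m + 3 by linarith),
    mul_nonneg hk (show (0:ℤ) ≤ (F:ℤ) + m - b by linarith),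
    mul_nonneg hk (show (0:ℤ) ≤ (b:ℤ) - 2 * g - 1 by linarith)]

theorem ineq2 (e g F b m : ℕ) (hg : 2 * g + 1 ≤ b) (hm : b + 7 ≤ 4 * m)
    (hF : b = F + m) (h2m : 2 * m ≤ b + 1) (he : 2 * m ≤ e + g + 1) (he0 : 1 ≤ e) :
    e * g ≤ (e - 1) * (F + 1) := by
  obtain ⟨k, rfl⟩ := Nat.exists_eq_add_of_le he0
  have h1 : 1 + k - 1 = k := by omega
  rw [h1]
  subst hF
  zify at *
  -- e = 1 + k; need (1+k) g ≤ k (F+1), i.e. F+1 ≤ (1+k)(F+1-g)
  have hP : (0:ℤ) ≤ 4 * m - 1 - (F + m) := by linarith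
  have hQ : (0:ℤ) ≤ (F + m) - 2 * m + 3 := by linarith
  have h3 : (4 * m - 1 - (F + m) : ℤ) ≤ 2 * (1 + k) := by linarith
  have h4 : ((F + m) - 2 * m + 3 : ℤ) ≤ 2 * (F + 1 - g) := by linarith
  have h5 := mul_le_mul h3 h4 hQ (by linarith)
  have h6 : (0:ℤ) ≤ ((F + m) - 2 * m + 1) * (4 * m - (F + m) - 7) :=
    mul_nonneg (by linarith) (by linarith)
  nlinarith

theorem ineqB (e g F d m : ℕ) (hm : 2 ≤ m) (hg : 2 * g ≤ d * (m - 1))
    (hF : (d - 1) * (m - 1) ≤ F + 1) (h : (4 ≤ d ∧ 3 ≤ e) ∨ (d = 3 ∧ 4 ≤ e)) :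
    e * g ≤ (e - 1) * (F + 1) := by
  obtain ⟨n, rfl⟩ := Nat.exists_eq_add_of_le hm
  have h1 : 2 + n - 1 = n + 1 := by omega
  rw [h1] at hg hF
  rcases h with ⟨hd, he⟩ | ⟨hd, he⟩
  · obtain ⟨j, rfl⟩ := Nat.exists_eq_add_of_le hd
    obtain ⟨k, rfl⟩ := Nat.exists_eq_add_of_le he
    have h2 : 4 + j - 1 = 3 + j := by omega
    have h3 : 3 + k - 1 = 2 + k := by omega
    rw [h2] at hF
    rw [h3]
    have h4 : (2 + k) * ((3 + j) * (n + 1)) ≤ (2 + k) * (F + 1) := Nat.mul_le_mul_left _ hF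
    have h5 : (3 + k) * (2 * g) ≤ (3 + k) * ((4 + j) * (n + 1)) := Nat.mul_le_mul_left _ hg
    have h6 : (3 + k) * ((4 + j) * (n + 1)) ≤ 2 * ((2 + k) * ((3 + j) * (n + 1))) := by
      have : (3 + k) * (4 + j) ≤ 2 * ((2 + k) * (3 + j)) := by ring_nf; nlinarith
      calc (3 + k) * ((4 + j) * (n + 1)) = ((3 + k) * (4 + j)) * (n + 1) := by ring
        _ ≤ (2 * ((2 + k) * (3 + j))) * (n + 1) := Nat.mul_le_mul_right _ this
        _ = _ := by ring
    nlinarith
  · subst hd
    obtain ⟨k, rfl⟩ := Nat.exists_eq_add_of_le he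
    have h3 : 4 + k - 1 = 3 + k := by omega
    rw [h3]
    have h4 : (3 + k) * ((3 - 1) * (n + 1)) ≤ (3 + k) * (F + 1) := Nat.mul_le_mul_left _ hF
    have h5 : (4 + k) * (2 * g) ≤ (4 + k) * (3 * (n + 1)) := Nat.mul_le_mul_left _ hg
    have h6 : (4 + k) * (3 * (n + 1)) ≤ 2 * ((3 + k) * ((3 - 1) * (n + 1))) := by
      norm_num
      nlinarith [Nat.zero_le (k * n)]
    nlinarith

/-- finite check used when `b = 15`, `m = 5` -/
theorem check15 : ∀ a < 15, (∀ x ∈ Finset.Icc 8 14, a * x % 15 ≤ x) →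
    a * 5 % 15 = 0 → (a * 1 % 15 > 1 ∧ a * 2 % 15 > 2 ∧ a * 3 % 15 > 3 ∧
      a * 4 % 15 > 4 ∧ a * 6 % 15 > 6 ∧ a * 7 % 15 > 7) → False := by
  decide

/-- finite check used for three generators, `3m ≤ b ≤ 4m - 8`, `b ≤ 37` -/
theorem check37 : ∀ m ∈ Finset.Icc 8 12, ∀ b ∈ Finset.Icc (3*m) (4*m-8), b ≤ 37 →
    ∀ a < b, (∀ x ∈ Finset.Ioo 0 m, ¬ (a * x % b ≤ x)) → a * m % b ≤ m →
      a * m % b ≠ 0 → a * m % b ≠ m →
      4 ≤ ((Finset.Ico m (2*m)).filter (fun x => a * x % b ≤ x)).card := by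
  decide +kernel

theorem count19 : (((Finset.range 4) ×ˢ ((Finset.range 4) ×ˢ (Finset.range 4))).filter
    (fun p : ℕ × (ℕ × ℕ) => 1 ≤ p.1 + (p.2.1 + p.2.2) ∧ p.1 + (p.2.1 + p.2.2) ≤ 3)).card = 19 := by
  decide +kernel

section
variable (a b : ℕ) (hb : 0 < b) (S : AddSubmonoid ℕ) (hS : ∀ x, x ∈ S ↔ a * x % b ≤ x)

include hb hS

theorem caseB (m : ℕ) (hmS : m ∈ S) (hm2 : 2 ≤ m) (hmin : ∀ x, 0 < x → x < m → x ∉ S)
    (hmb : m < b) (hdiv : b ∣ a * m)
    (A : Finset ℕ) (hA : (A : Set ℕ) = atoms S)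
    (Gp : Finset ℕ) (hG : ∀ x, x ∈ Gp ↔ x ∉ S)
    (F : ℕ) (hF : F ∉ S) (hF' : ∀ x, F < x → x ∈ S) (he : 3 ≤ A.card) :
    A.card * Gp.card ≤ (A.card - 1) * (F + 1) := by
  classical
  -- `b = d * m`
  obtain ⟨d, a', hbd, had, hcop⟩ : ∃ d a', b = d * m ∧ a = d * a' ∧ Nat.Coprime a' m := by
    obtain ⟨a1, b1, hc, ha1, hb1⟩ := Nat.exists_coprime a b
    set g := Nat.gcd a b with hg
    have hg0 : 0 < g := Nat.gcd_pos_of_pos_right _ hb
    have h1 : b1 ∣ m := by
      apply hc.symm.dvd_of_dvd_mul_left (m := a1)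
      have h2 : b1 * g ∣ a1 * g * m := by rw [← hb1, ← ha1]; exact hdiv
      have h3 : a1 * g * m = (a1 * m) * g := by ring
      rw [h3] at h2
      exact Nat.dvd_of_mul_dvd_mul_right hg0 h2
    have hb10 : 0 < b1 := by
      rcases Nat.eq_zero_or_pos b1 with h | h
      · rw [h] at hb1; omega
      · exact h
    have h4 : b1 ∈ S := by
      rw [hS]
      have : a * b1 = a1 * b := by
        rw [hb1]
        calc a * b1 = (a1 * g) * b1 := by rw [← ha1]
          _ = a1 * (b1 * g) := by ring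
      rw [this, Nat.mul_mod_left]
      exact Nat.zero_le _
    have h5 : m ≤ b1 := by
      by_contra hcon
      exact hmin b1 hb10 (by omega) h4
    have h6 : b1 = m := le_antisymm (Nat.le_of_dvd (by omega) h1) h5
    refine ⟨g, a1, ?_, ?_, ?_⟩
    · rw [← h6, mul_comm]; exact hb1
    · rw [mul_comm]; exact ha1
    · rw [← h6]; exact hc
  have hd2 : 2 ≤ d := by
    by_contra hcon
    have : d * m ≤ 1 * m := Nat.mul_le_mul_right m (by omega)
    omega
  -- gap bound
  have hjm : ∀ j : ℕ, j * m ∈ S := by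
    intro j
    have := S.nsmul_mem hmS j
    simpa using this
  have hgap := gap_bound a b hb S hS Gp hG ((Finset.Ioo 0 d).image (fun j => j * m)) (by
    intro t ht
    rw [Finset.mem_image] at ht
    obtain ⟨j, hj, rfl⟩ := ht
    rw [Finset.mem_Ioo] at hj
    have h1 : j * m < d * m := Nat.mul_lt_mul_of_pos_right hj.2 (by omega)
    refine ⟨Nat.mul_pos hj.1 (by omega), by omega, hjm j, ?_⟩
    have : b - j * m = (d - j) * m := by rw [hbd, Nat.sub_mul]
    rw [this]; exact hjm _)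
  rw [Finset.card_image_of_injective _ (fun x y hxy => Nat.eq_of_mul_eq_mul_right (by omega) hxy),
    Nat.card_Ioo] at hgap
  have hg2 : 2 * Gp.card ≤ d * (m - 1) := by
    rw [Nat.mul_sub]; omega
  -- Frobenius bound
  have hFlow : (d - 1) * (m - 1) ≤ F + 1 := by
    obtain ⟨n, rfl⟩ := Nat.exists_eq_add_of_le hm2
    obtain ⟨k, rfl⟩ := Nat.exists_eq_add_of_le hd2
    have e1 : 2 + k - 1 = k + 1 := by omega
    have e2 : 2 + n - 1 = n + 1 := by omega
    rw [e1, e2]
    by_contra hcon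
    push Not at hcon
    -- N = b - d - m
    set N := (2 + k) * (2 + n) - (2 + k) - (2 + n) with hN
    have hN' : N + (2 + k) + (2 + n) = (2 + k) * (2 + n) := by
      have : (2 + k) + (2 + n) ≤ (2 + k) * (2 + n) := by nlinarith
      omega
    have hN2 : N + 1 = (k + 1) * (n + 1) := by nlinarith
    obtain ⟨y, hy⟩ : ∃ y : ℕ, a' * y ≡ (2 + n) - 1 [MOD (2 + n)] := by
      obtain ⟨y, hy⟩ := Nat.exists_mul_mod_eq_one_of_coprime hcop (by omega)
      refine ⟨y * (2 + n - 1), ?_⟩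
      have : a' * (y * (2 + n - 1)) = (a' * y) * (2 + n - 1) := by ring
      rw [this]
      have h1 : a' * y ≡ 1 [MOD (2+n)] := by
        rw [Nat.ModEq, hy.2, Nat.mod_eq_of_lt (by omega)]
      simpa using h1.mul_right (2 + n - 1)
    have hpos : (0:ℤ) < ((2 + n : ℕ) : ℤ) := by positivity
    have hr0 : 0 ≤ ((y:ℤ) - N) % ((2 + n : ℕ) : ℤ) := Int.emod_nonneg _ (by omega)
    have hr1 : ((y:ℤ) - N) % ((2 + n : ℕ) : ℤ) < ((2 + n : ℕ) : ℤ) := Int.emod_lt_of_pos _ hpos
    set x := N + (((y:ℤ) - N) % ((2 + n : ℕ) : ℤ)).toNat with hx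
    have hxy : x ≡ y [MOD (2 + n)] := by
      rw [← Int.natCast_modEq_iff, hx]
      push_cast [Int.toNat_of_nonneg hr0]
      rw [Int.toNat_of_nonneg (by exact_mod_cast hr0)]
      have h2 : ((y:ℤ) - N) % ((2:ℤ) + n) ≡ (y:ℤ) - N [ZMOD (2 + n)] := Int.mod_modEq _ _
      have h3 := h2.add_left (N:ℤ)
      have h4 : (N:ℤ) + ((y:ℤ) - N) = y := by ring
      rw [h4] at h3
      exact h3
    have hax : (2 + k) * a' * x % ((2 + k) * (2 + n)) = (2 + k) * (n + 1) := by
      rw [mul_assoc, Nat.mul_mod_mul_left]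
      have h1 : a' * x ≡ (2 + n) - 1 [MOD (2 + n)] := (hxy.mul_left a').trans hy
      rw [Nat.ModEq] at h1
      rw [h1, Nat.mod_eq_of_lt (by omega)]
      congr 1
    have hxlt : x < N + (2 + n) := by omega
    have hxS : x ∉ S := by
      rw [hS, hbd, had, hax]
      push Not
      nlinarith
    have hxF : x ≤ F := by
      by_contra hc
      exact hxS (hF' x (by omega))
    omega
  have hF1 : F ≠ m := by
    rintro rfl; exact hF hmS
  have hlow := atoms_lower S m hmin A hA Gp hG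
  by_cases h4 : 4 ≤ d
  · exact ineqB _ _ _ d m hm2 hg2 hFlow (Or.inl ⟨h4, he⟩)
  by_cases h3 : d = 3
  · by_cases he4 : 4 ≤ A.card
    · exact ineqB _ _ _ d m hm2 hg2 hFlow (Or.inr ⟨h3, he4⟩)
    · have he3 : A.card = 3 := by omega
      rw [he3]
      subst h3
      rw [he3] at hlow
      have hm5 : m ≤ 5 := by omega
      interval_cases m
      · omega
      · omega
      · omega
      · by_cases hg6 : Gp.card ≤ 5
        · omega
        by_cases hF8 : 8 ≤ F
        · omega
        exfalso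
        have hF7 : F = 7 := by omega
        have hGp : Gp = {1, 2, 3, 4, 6, 7} := by
          apply Finset.eq_of_subset_of_card_le
          · intro x hx
            rw [hG] at hx
            have hx7 : x ≤ 7 := by
              by_contra hc
              exact hx (hF' x (by omega))
            interval_cases x
            · exact absurd (zero_mem _) hx
            · decide
            · decide
            · decide
            · decide
            · exact absurd hmS hx
            · decide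
            · decide
          · simp; omega
        have hnot : ∀ x ∈ ({1, 2, 3, 4, 6, 7} : Finset ℕ), ¬ (a * x % 15 ≤ x) := by
          intro x hx
          rw [← hGp, hG, hS, hbd] at hx
          exact hx
        have hb15 : b = 15 := by omega
        have hred : ∀ x, (a % 15) * x % 15 = a * x % 15 := by
          intro x; rw [Nat.mod_mul_mod]
        apply check15 (a % 15) (Nat.mod_lt _ (by norm_num))
        · intro x hx
          rw [Finset.mem_Icc] at hx
          rw [hred]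
          have := hF' x (by omega)
          rw [hS, hb15] at this
          exact this
        · rw [hred]
          rw [hb15] at hdiv
          exact Nat.mod_eq_zero_of_dvd hdiv
        · simp only [hred]
          refine ⟨?_, ?_, ?_, ?_, ?_, ?_⟩
          · exact not_le.1 (hnot 1 (by decide))
          · exact not_le.1 (hnot 2 (by decide))
          · exact not_le.1 (hnot 3 (by decide))
          · exact not_le.1 (hnot 4 (by decide))
          · exact not_le.1 (hnot 6 (by decide))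
          · exact not_le.1 (hnot 7 (by decide))
  · have hd : d = 2 := by omega
    subst hd
    have hFm : m - 1 ≤ F := by
      by_contra hc
      exact hmin (m-1) (by omega) (by omega) (hF' _ (by omega))
    have h1 : m ≤ A.card := by omega
    have h2 : Gp.card ≤ m - 1 := by omega
    obtain ⟨n, rfl⟩ := Nat.exists_eq_add_of_le hm2
    obtain ⟨k, hk⟩ := Nat.exists_eq_add_of_le h1
    rw [hk]
    have e1 : 2 + n + k - 1 = n + k + 1 := by omega
    have e2 : 2 + n - 1 = n + 1 := by omega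
    rw [e1]
    rw [e2] at h2 hFm
    calc (2 + n + k) * Gp.card ≤ (2 + n + k) * (n + 1) := Nat.mul_le_mul_left _ h2
      _ ≤ (n + k + 1) * (n + 1 + 1) := by nlinarith
      _ ≤ (n + k + 1) * (F + 1) := Nat.mul_le_mul_left _ (by omega)

theorem caseA3 (m : ℕ) (hmS : m ∈ S) (hm2 : 2 ≤ m) (hmin : ∀ x, 0 < x → x < m → x ∉ S)
    (hm4 : b + 8 ≤ 4 * m) (hm3 : 3 * m ≤ b) (hr0 : a * m % b ≠ 0) (hrm : a * m % b ≠ m)
    (A : Finset ℕ) (hA : (A : Set ℕ) = atoms S)
    (Gp : Finset ℕ) (hG : ∀ x, x ∈ Gp ↔ x ∉ S) (hg : 2 * Gp.card + 1 ≤ b)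
    (he : A.card = 3) : False := by
  classical
  have hcl := closure_atoms S
  rw [← hA] at hcl
  obtain ⟨u, v, w, huv, huw, hvw, rfl⟩ := Finset.card_eq_three.1 he
  have hge : ∀ x ∈ atoms S, m ≤ x := by
    intro x hx
    by_contra hcon
    exact hmin x (Nat.pos_of_ne_zero hx.2.1) (by omega) hx.1
  have hu := hge u (by rw [← hA]; simp)
  have hv := hge v (by rw [← hA]; simp)
  have hw := hge w (by rw [← hA]; simp)
  have hmem : ∀ x ∈ S, ∃ i j l : ℕ, x = i * u + (j * v + l * w) := by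
    intro x hx
    rw [← hcl] at hx
    induction hx using AddSubmonoid.closure_induction with
    | mem x hx =>
      simp only [Finset.coe_insert, Finset.coe_singleton, Set.mem_insert_iff,
        Set.mem_singleton_iff] at hx
      rcases hx with h | h | h
      · exact ⟨1, 0, 0, by rw [h]; ring⟩
      · exact ⟨0, 1, 0, by rw [h]; ring⟩
      · exact ⟨0, 0, 1, by rw [h]; ring⟩
    | zero => exact ⟨0, 0, 0, by ring⟩
    | add x y hx hy ihx ihy =>
      obtain ⟨i, j, l, h⟩ := ihx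
      obtain ⟨i', j', l', h'⟩ := ihy
      exact ⟨i + i', j + j', l + l', by rw [h, h']; ring⟩
  have hsub : (Finset.Ioc 0 b) \ Gp ⊆ ((((Finset.range 4) ×ˢ ((Finset.range 4) ×ˢ (Finset.range 4))).filter
    (fun p : ℕ × (ℕ × ℕ) => 1 ≤ p.1 + (p.2.1 + p.2.2) ∧ p.1 + (p.2.1 + p.2.2) ≤ 3)).image
      (fun p => p.1 * u + (p.2.1 * v + p.2.2 * w))) := by
    intro x hx
    rw [Finset.mem_sdiff, Finset.mem_Ioc, hG] at hx
    push Not at hx
    obtain ⟨⟨hx0, hxb⟩, hxS⟩ := hx
    obtain ⟨i, j, l, h⟩ := hmem x hxS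
    rw [Finset.mem_image]
    have h1 : i * m ≤ i * u := Nat.mul_le_mul_left i hu
    have h2 : j * m ≤ j * v := Nat.mul_le_mul_left j hv
    have h3 : l * m ≤ l * w := Nat.mul_le_mul_left l hw
    have h4 : (i + (j + l)) * m ≤ x := by rw [h]; nlinarith
    have h5 : i + (j + l) ≤ 3 := by
      by_contra hcon
      have : 4 * m ≤ (i + (j + l)) * m := Nat.mul_le_mul_right m (by omega)
      omega
    have h6 : 1 ≤ i + (j + l) := by
      by_contra hcon
      have hi : i = 0 := by omega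
      have hj : j = 0 := by omega
      have hl : l = 0 := by omega
      subst hi hj hl
      simp at h
      omega
    refine ⟨(i, (j, l)), ?_, h.symm⟩
    rw [Finset.mem_filter, Finset.mem_product, Finset.mem_product, Finset.mem_range,
      Finset.mem_range, Finset.mem_range]
    exact ⟨⟨by simp only; omega, by simp only; omega, by simp only; omega⟩, h6, h5⟩
  have hc := (Finset.card_le_card hsub).trans Finset.card_image_le
  rw [count19] at hc
  have hc2 := Finset.le_card_sdiff Gp (Finset.Ioc 0 b)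
  rw [Nat.card_Ioc] at hc2
  have hb37 : b ≤ 37 := by omega
  have hred : ∀ x, (a % b) * x % b = a * x % b := by
    intro x; rw [Nat.mod_mul_mod]
  have hchk := check37 m (by rw [Finset.mem_Icc]; omega) b (by rw [Finset.mem_Icc]; omega) hb37
    (a % b) (Nat.mod_lt _ hb) (by
      intro x hx
      rw [Finset.mem_Ioo] at hx
      rw [hred, ← hS]
      exact hmin x hx.1 hx.2) (by rw [hred, ← hS]; exact hmS) (by rw [hred]; exact hr0)
      (by rw [hred]; exact hrm)
  have hsub2 : ((Finset.Ico m (2*m)).filter (fun x => (a % b) * x % b ≤ x)) ⊆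
      ({u, v, w} : Finset ℕ) := by
    intro x hx
    rw [Finset.mem_filter, Finset.mem_Ico, hred, ← hS] at hx
    have : x ∈ ((({u, v, w} : Finset ℕ) : Finset ℕ) : Set ℕ) := by
      rw [hA]
      exact mem_atoms S m hmin x (by omega) hx.1.2 hx.2
    exact this
  have := hchk.trans (Finset.card_le_card hsub2)
  omega

theorem wilf_main (A : Finset ℕ) (hA : (A : Set ℕ) = atoms S)
    (Gp : Finset ℕ) (hG : ∀ x, x ∈ Gp ↔ x ∉ S)
    (F : ℕ) (hF : F ∉ S) (hF' : ∀ x, F < x → x ∈ S) :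
    A.card * Gp.card ≤ (A.card - 1) * (F + 1) := by
  by_cases he2 : A.card ≤ 2
  · obtain ⟨h1, h2⟩ := wilf_le_two S A hA he2 F hF hF' Gp hG
    rw [h1]; omega
  have he : 3 ≤ A.card := by omega
  obtain ⟨m, hmS, hm0, hmin⟩ := exists_mult a b hb S hS
  have hm2 : 2 ≤ m := by
    by_contra hcon
    have : m = 1 := by omega
    subst this
    have := S.nsmul_mem hmS F
    simp at this
    exact hF this
  have hgap := gap_bound a b hb S hS Gp hG ∅ (by simp)
  simp only [Finset.card_empty, add_zero] at hgap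
  have hb2 : 2 ≤ b := by
    by_contra hcon
    exact hmin 1 (by omega) (by omega) (mem_of_ge a b hb S hS 1 (by omega))
  have hmb : m < b := by
    by_contra hcon
    apply hmin (b - 1) (by omega) (by omega)
    rw [hS]
    have := Nat.mod_lt (a * (b-1)) hb
    omega
  -- gaps below m
  have hmg : m - 1 ≤ Gp.card := by
    have h1 : Finset.Ioo 0 m ⊆ Gp := by
      intro x hx
      rw [Finset.mem_Ioo] at hx
      rw [hG]; exact hmin x hx.1 hx.2
    have := Finset.card_le_card h1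
    rw [Nat.card_Ioo] at this
    omega
  by_cases hr0 : a * m % b = 0
  · exact caseB a b hb S hS m hmS hm2 hmin hmb (Nat.dvd_of_mod_eq_zero hr0) A hA Gp hG F hF hF' he
  by_cases hrm : a * m % b = m
  · have ha : a % b ≤ b := (Nat.mod_lt _ hb).le
    have hS2 : ∀ x, x ∈ S ↔ (b + 1 - a % b) * x % b ≤ x := by
      intro x
      rw [← refl_iff (a % b) b hb ha x, Nat.mod_mul_mod]
      exact hS x
    have hdiv : b ∣ (b + 1 - a % b) * m := by
      have h1 : (b + 1 - a % b) * m + (a % b) * m = b * m + m := by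
        rw [← add_mul]
        have : b + 1 - a % b + a % b = b + 1 := by omega
        rw [this]; ring
      have h2 : (a % b) * m % b = m := by rw [Nat.mod_mul_mod]; exact hrm
      have h3 : (b + 1 - a % b) * m ≡ 0 [MOD b] := by
        apply Nat.ModEq.add_right_cancel (c := (a % b) * m) (d := m)
        · rw [Nat.ModEq, h2, Nat.mod_eq_of_lt hmb]
        · rw [h1, zero_add]
          exact Nat.modEq_iff_dvd.2 ⟨-(m:ℤ), by push_cast; ring⟩
      exact (Nat.modEq_zero_iff_dvd).1 h3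
    exact caseB (b + 1 - a % b) b hb S hS2 m hmS hm2 hmin hmb hdiv A hA Gp hG F hF hF' he
  -- Case A
  have hbm : b - m ∉ S := by
    intro hcon
    rw [hS] at hcon hmS
    rcases pair2 a b hb m hm0 hmb hmS hcon with h | h
    · exact hr0 h
    · exact hrm h
  have hFl : b ≤ F + m := by
    by_contra hc
    exact hbm (hF' _ (by omega))
  have hFu : F + m ≤ b := by
    by_contra hc
    apply hF
    by_cases hFb : b ≤ F
    · exact mem_of_ge a b hb S hS F hFb
    · have h1 : b - F ∉ S := hmin (b - F) (by omega) (by omega)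
      rw [hS] at h1
      have h2 := pair1 a b hb (b - F) (by omega) (by omega) h1
      have h3 : b - (b - F) = F := by omega
      rw [h3] at h2
      rw [hS]; exact h2
  have hlow := atoms_lower S m hmin A hA Gp hG
  by_cases h1 : 4 * m ≤ b + 7
  · exact ineq1 _ _ _ b m he hgap h1 hFl
  by_cases h2 : b + 1 ≤ 3 * m
  · exact ineq2 _ _ _ b m hgap (by omega) (by omega) (by omega) hlow (by omega)
  by_cases he4 : 4 ≤ A.card
  · exact ineq3 _ _ _ b m he4 hgap (by omega) hFl (by omega)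
  exfalso
  exact caseA3 a b hb S hS m hmS hm2 hmin (by omega) (by omega) hr0 hrm A hA Gp hG hgap (by omega)

end

end Pool.Agent.Q16.Wilf
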