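import Pool.Agent.Q16.Wilf.Basic

namespace Pool.Agent.Q16.Wilf

theorem sum_cases (b s r : ℕ) (hs : s < b) (hr : r < b) (h : b ∣ s + r) :
    (s = 0 ∧ r = 0) ∨ s + r = b := by
  obtain ⟨k, hk⟩ := h
  have hk2 : k < 2 := by
    by_contra hcon
    have : b * 2 ≤ b * k := Nat.mul_le_mul_left b (by omega)
    omega
  interval_cases k
  · left; omega
  · right; omega

theorem dvd_sum (a b x : ℕ) (hx : x ≤ b) :
    b ∣ (a * (b - x)) % b + (a * x) % b := by
  have h1 : a * (b - x) + a * x = a * b := by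
    rw [← mul_add]; congr 1; omega
  have h2 := Nat.add_mod (a * (b-x)) (a * x) b
  rw [h1, Nat.mul_mod_left] at h2
  exact Nat.dvd_of_mod_eq_zero h2.symm

theorem pair1 (a b : ℕ) (hb : 0 < b) (x : ℕ) (_hx0 : 0 < x) (hxb : x < b)
    (h : ¬ (a * x % b ≤ x)) : a * (b - x) % b ≤ b - x := by
  have h1 := sum_cases b _ _ (Nat.mod_lt (a * (b-x)) hb) (Nat.mod_lt (a*x) hb)
    (dvd_sum a b x hxb.le)
  omega

theorem pair2 (a b : ℕ) (hb : 0 < b) (x : ℕ) (_hx0 : 0 < x) (hxb : x < b)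
    (h : a * x % b ≤ x) (h' : a * (b - x) % b ≤ b - x) : a * x % b = 0 ∨ a * x % b = x := by
  have h1 := sum_cases b _ _ (Nat.mod_lt (a * (b-x)) hb) (Nat.mod_lt (a*x) hb)
    (dvd_sum a b x hxb.le)
  omega

/-- the symmetry `a ↦ b + 1 - a` -/
theorem refl_iff (a b : ℕ) (hb : 0 < b) (ha : a ≤ b) (x : ℕ) :
    a * x % b ≤ x ↔ (b + 1 - a) * x % b ≤ x := by
  by_cases hx : b ≤ x
  · constructor <;> intro _
    · exact (Nat.mod_lt _ hb).le.trans hx
    · exact (Nat.mod_lt _ hb).le.trans hx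
  · push Not at hx
    have h1 : (b + 1 - a) * x + a * x = b * x + x := by
      rw [← add_mul]
      have : b + 1 - a + a = b + 1 := by omega
      rw [this]; ring
    have h2 := Nat.add_mod ((b+1-a) * x) (a * x) b
    rw [h1, Nat.mul_add_mod, Nat.mod_eq_of_lt hx] at h2
    have hs := Nat.mod_lt ((b+1-a)*x) hb
    have hr := Nat.mod_lt (a*x) hb
    set s := (b+1-a)*x % b
    set r := a*x % b
    by_cases hlt : s + r < b
    · rw [Nat.mod_eq_of_lt hlt] at h2
      omega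
    · push Not at hlt
      rw [Nat.mod_eq_sub_mod hlt, Nat.mod_eq_of_lt (by omega)] at h2
      omega

section
variable (a b : ℕ) (hb : 0 < b) (S : AddSubmonoid ℕ) (hS : ∀ x, x ∈ S ↔ a * x % b ≤ x)

include hb hS

theorem mem_of_ge (x : ℕ) (hx : b ≤ x) : x ∈ S := by
  rw [hS]; exact (Nat.mod_lt _ hb).le.trans hx

/-- The least positive element. -/
theorem exists_mult : ∃ m, m ∈ S ∧ 0 < m ∧ ∀ x, 0 < x → x < m → x ∉ S := by
  classical
  have hex : ∃ x, x ∈ S ∧ 0 < x := ⟨b, mem_of_ge a b hb S hS b le_rfl, hb⟩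
  refine ⟨Nat.find hex, (Nat.find_spec hex).1, (Nat.find_spec hex).2, ?_⟩
  intro x hx hlt hxS
  exact Nat.find_min hex hlt ⟨hxS, hx⟩

/-- General gap bound: if all multiples `j m`, `1 ≤ j < d`, `b = d m`, lie in `S`... -/
theorem gap_bound (Gp : Finset ℕ) (hG : ∀ x, x ∈ Gp ↔ x ∉ S)
    (T : Finset ℕ) (hT : ∀ t ∈ T, 0 < t ∧ t < b ∧ t ∈ S ∧ b - t ∈ S) :
    2 * Gp.card + T.card + 1 ≤ b := by
  classical
  have hgap : ∀ x ∈ Gp, 0 < x ∧ x < b := by
    intro x hx
    rw [hG] at hx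
    constructor
    · rcases Nat.eq_zero_or_pos x with h | h
      · subst h; exact absurd (zero_mem _) hx
      · exact h
    · by_contra hcon
      exact hx (mem_of_ge a b hb S hS x (by omega))
  have hsub1 : Gp ⊆ Finset.Ioo 0 b := by
    intro x hx; rw [Finset.mem_Ioo]; exact hgap x hx
  have hsub2 : (Gp.image (fun z => b - z)) ∪ T ⊆ (Finset.Ioo 0 b) \ Gp := by
    intro y hy
    rw [Finset.mem_union] at hy
    rw [Finset.mem_sdiff, Finset.mem_Ioo]
    rcases hy with hy | hy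
    · rw [Finset.mem_image] at hy
      obtain ⟨z, hz, rfl⟩ := hy
      obtain ⟨h1, h2⟩ := hgap z hz
      refine ⟨by omega, ?_⟩
      rw [hG]; push Not
      rw [hS]
      apply pair1 a b hb z h1 h2
      rw [← hS]; exact (hG z).1 hz
    · obtain ⟨h1, h2, h3, h4⟩ := hT y hy
      refine ⟨⟨h1, h2⟩, ?_⟩
      rw [hG]; push Not; exact h3
  have hdisj : Disjoint (Gp.image (fun z => b - z)) T := by
    rw [Finset.disjoint_left]
    intro y hy hyT
    rw [Finset.mem_image] at hy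
    obtain ⟨z, hz, rfl⟩ := hy
    obtain ⟨h1, h2, h3, h4⟩ := hT _ hyT
    obtain ⟨h5, h6⟩ := hgap z hz
    have : b - (b - z) = z := by omega
    rw [this] at h4
    exact (hG z).1 hz h4
  have hc1 : (Gp.image (fun z => b - z)).card = Gp.card := by
    apply Finset.card_image_of_injOn
    intro x hx y hy hxy
    have h1 := hgap x hx
    have h2 := hgap y hy
    simp only at hxy
    omega
  have hc2 := Finset.card_le_card hsub2
  rw [Finset.card_union_of_disjoint hdisj, hc1, Finset.card_sdiff_of_subset hsub1,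
    Nat.card_Ioo] at hc2
  have hc3 := Finset.card_le_card hsub1
  rw [Nat.card_Ioo] at hc3
  omega

omit hb hS in
/-- All elements of `S ∩ [m, 2m)` are atoms. -/
theorem mem_atoms (m : ℕ) (hmin : ∀ x, 0 < x → x < m → x ∉ S)
    (x : ℕ) (hx1 : 0 < x) (hx2 : x < 2 * m) (hxS : x ∈ S) : x ∈ atoms S := by
  refine ⟨hxS, by omega, ?_⟩
  intro y hy z hz hy0 hz0 hyz
  have hy1 : m ≤ y := by
    by_contra hcon
    exact hmin y (by omega) (by omega) hy
  have hz1 : m ≤ z := by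
    by_contra hcon
    exact hmin z (by omega) (by omega) hz
  omega

omit hb hS in
theorem atoms_lower (m : ℕ) (hmin : ∀ x, 0 < x → x < m → x ∉ S)
    (A : Finset ℕ) (hA : (A : Set ℕ) = atoms S)
    (Gp : Finset ℕ) (hG : ∀ x, x ∈ Gp ↔ x ∉ S) :
    2 * m ≤ A.card + Gp.card + 1 := by
  classical
  have h1 : (Finset.Ico 1 (2*m)) \ Gp ⊆ A := by
    intro x hx
    rw [Finset.mem_sdiff, Finset.mem_Ico, hG] at hx
    push Not at hx
    obtain ⟨⟨hx1, hx2⟩, hxS⟩ := hx
    have : x ∈ (A : Set ℕ) := by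
      rw [hA]
      exact mem_atoms S m hmin x (by omega) hx2 hxS
    exact this
  have h2 := Finset.card_le_card h1
  have h3 := Finset.le_card_sdiff Gp (Finset.Ico 1 (2*m))
  rw [Nat.card_Ico] at h3
  omega

end

end Pool.Agent.Q16.Wilf
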